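import Pool.Agent.LE.StmtsC
import Pool.Agent.Helper42_LE.Msd

/-!
# CDU: a cube without decay conducts up to every radius
-/

set_option autoImplicit false

open scoped BigOperators

noncomputable section

namespace Pool.Agent.LE.H39C

open Pool.Agent.Anderson Pool.Agent.Loc Pool.Agent.Mob Pool.Agent.LE

theorem cdu (hF : FvdStmt) : CduStmt := by
  intro d V N L r b E κ T hd hT hrL hbox hdet hT0 hreg hSG
  have hT1 : (0 : ℝ) ≤ T := zero_le_one.trans hT
  obtain ⟨A, hA⟩ : ∃ A : ℝ, A = 1 + 2 * d * (2 * L + 1) ^ d * T := ⟨_, rfl⟩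
  obtain ⟨A', hA'⟩ : ∃ A' : ℝ, A' = 1 + 2 * d * (2 * r + 1) ^ d * T := ⟨_, rfl⟩
  have hrL' : (r : ℝ) ≤ L := by exact_mod_cast hrL
  have hA1 : 1 ≤ A := by
    rw [hA]
    have : (0 : ℝ) ≤ 2 * d * (2 * L + 1) ^ d * T := by positivity
    linarith
  have hA0 : 0 < A := by linarith
  have hAA : A' ≤ A := by
    rw [hA, hA']
    gcongr
  rw [← hA]
  by_contra hcon
  push Not at hcon
  apply hSG
  refine ⟨(hreg L le_rfl).1, fun u hu => ?_⟩
  obtain ⟨e, he⟩ : ∃ e : ℝ, e = Real.exp (-κ * L) := ⟨_, rfl⟩
  have he0 : 0 < e := by rw [he]; exact Real.exp_pos _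
  rw [← he] at hcon ⊢
  -- the comparison at the radius `r`
  have hΛ : box b (r + 1) ⊆ box 0 N := (box_mono b (by omega)).trans hbox
  have hsub : box b (r + 1) ⊆ box b (L + 1) := box_mono b (by omega)
  have ha0 : 0 ≤ e / A ^ 2 := by positivity
  have h1 := (hF d V (box 0 N) b r E T (e / A ^ 2) hT1 ha0 hΛ hdet (hreg r hrL).1
    (hreg r hrL).2 (fun x hx y hy => hT0 x (hsub hx) y (hsub hy))).2 (fun v hv => by
      have := hcon v hv
      rw [le_div_iff₀ (by positivity), mul_comm]
      exact this.le)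
  have h2 : ∀ c, sd b c = r → |gr V (box b r) E b c| ≤ e / A := by
    intro c hc
    refine (h1 c hc).trans ?_
    rw [← hA']
    calc A' * (e / A ^ 2) ≤ A * (e / A ^ 2) := mul_le_mul_of_nonneg_right hAA ha0
      _ = e / A := by field_simp
  rcases Nat.lt_or_ge r L with hlt | hge
  · -- expansion through the smaller cube
    have hsubL : box b r ⊆ box b L := box_mono b hrL
    have hbr : b ∈ box b r := by
      rw [mem_box, sd_self]
      exact Nat.zero_le _
    have huL : u ∈ box b L \ box b r := by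
      rw [Finset.mem_sdiff, mem_box, mem_box]
      omega
    have h3 := H42.geo_bound (V := V) (Λ := box b L) (A := box b r) (E := E) (α := e / A)
      (β := T) hsubL (hreg L le_rfl).1 (hreg r hrL).1 hbr huL (by positivity) hT1
      (by
        intro c hc c' hc' hh
        rw [mem_box] at hc
        rw [Finset.mem_sdiff, mem_box, mem_box] at hc'
        have e1 := sd_of_hop hh
        have e2 := sd_triangle b c c'
        have e3 : sd b c = r := by omega
        exact ⟨h2 c e3, (hreg L le_rfl).2 c' u⟩)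
    have hcard : ((box b r).card : ℝ) = (2 * r + 1) ^ d := by
      rw [card_box]
      push_cast
      ring
    rw [hcard] at h3
    refine h3.trans ?_
    have h4 : 2 * d * (2 * (r : ℝ) + 1) ^ d * T ≤ A := by
      have : 2 * d * (2 * (r : ℝ) + 1) ^ d * T ≤ A' := by rw [hA']; linarith
      exact this.trans hAA
    calc e / A * (2 * d * (2 * (r : ℝ) + 1) ^ d) * T =
          e / A * (2 * d * (2 * (r : ℝ) + 1) ^ d * T) := by ring
      _ ≤ e / A * A := mul_le_mul_of_nonneg_left h4 (by positivity)
      _ = e := by field_simp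
  · have hr : r = L := le_antisymm hrL hge
    subst hr
    refine (h2 u hu).trans ?_
    rw [div_le_iff₀ hA0]
    nlinarith

end Pool.Agent.LE.H39C
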